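import Mathlib
import Pool.Agent.Lib.MP_9a581e_an.General

set_option autoImplicit false

namespace Pool.Agent.Lib.MP_9a581e_an.Ord56

variable {d : ℕ} (T : LegalTree d) {F : Subgroup (Equiv.Perm (Fin d))}

lemma dist_map_le (g : T.G ≃g T.G) (u v : T.V) : T.G.dist (g u) (g v) ≤ T.G.dist u v := by
  obtain ⟨p, hp⟩ := T.isTree.connected.exists_walk_length_eq_dist u v
  have := SimpleGraph.dist_le (p.map g.toHom)
  rw [SimpleGraph.Walk.length_map, hp] at this
  exact this

lemma dist_map (g : T.G ≃g T.G) (u v : T.V) : T.G.dist (g u) (g v) = T.G.dist u v := by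
  refine le_antisymm (dist_map_le T g u v) ?_
  have := dist_map_le T g.symm (g u) (g v)
  rwa [g.symm_apply_apply, g.symm_apply_apply] at this

lemma dist_adj {v w : T.V} (h : T.G.Adj v w) (u : T.V) :
    T.G.dist v u = T.G.dist w u + 1 ∨ T.G.dist w u = T.G.dist v u + 1 := by
  have := T.isTree.dist_eq_dist_add_one_of_adj u h
  rw [SimpleGraph.dist_comm (u := u) (v := v), SimpleGraph.dist_comm (u := u) (v := w)] at this
  exact this

lemma next_unique {v a b w : T.V} (ha : T.G.Adj v a) (hb : T.G.Adj v b)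
    (h1 : T.G.dist a w < T.G.dist v w) (h2 : T.G.dist b w < T.G.dist v w) : a = b := by
  obtain ⟨p, hp⟩ := T.isTree.connected.exists_walk_length_eq_dist a w
  obtain ⟨q, hq⟩ := T.isTree.connected.exists_walk_length_eq_dist b w
  have e1 := dist_adj T ha w
  have e2 := dist_adj T hb w
  have hp' : (SimpleGraph.Walk.cons ha p).IsPath :=
    SimpleGraph.Walk.isPath_of_length_eq_dist _ (by rw [SimpleGraph.Walk.length_cons]; omega)
  have hq' : (SimpleGraph.Walk.cons hb q).IsPath :=
    SimpleGraph.Walk.isPath_of_length_eq_dist _ (by rw [SimpleGraph.Walk.length_cons]; omega)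
  have h := (T.isTree.existsUnique_path v w).unique hp' hq'
  have h3 := congrArg SimpleGraph.Walk.snd h
  simpa using h3

lemma exists_next {v w : T.V} (h : v ≠ w) : ∃ a, T.G.Adj v a ∧ T.G.dist a w < T.G.dist v w := by
  obtain ⟨p, hp⟩ := T.isTree.connected.exists_walk_length_eq_dist v w
  cases p with
  | nil => exact absurd rfl h
  | cons ha q =>
    refine ⟨_, ha, ?_⟩
    have := SimpleGraph.dist_le q
    rw [SimpleGraph.Walk.length_cons] at hp
    omega

lemma mul_apply (g h : U T F) (v : T.V) : (g * h).1 v = g.1 (h.1 v) := rfl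

lemma one_apply (v : T.V) : (1 : U T F).1 v = v := rfl

lemma fix_star (hF : ∀ σ ∈ F, σ * σ = 1 → ∀ i, σ i = i → σ = 1) (h : U T F) (hh : h * h = 1)
    (v : T.V) (i : Fin d) (h1 : h.1 v = v) (h2 : h.1 (T.s i v) = T.s i v) (j : Fin d) :
    h.1 (T.s j v) = T.s j v := by
  obtain ⟨σ, hσ, hs⟩ := mem_U T h v
  rw [h1] at hs
  have e1 : σ i = i := s_inj T ((hs i).symm.trans h2)
  have e2 : σ * σ = 1 := by
    ext k
    have : (h * h).1 (T.s k v) = T.s k v := by rw [hh]; rfl
    rw [mul_apply, hs, hs] at this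
    exact congrArg _ (s_inj T this)
  rw [hs, hF σ hσ e2 i e1]
  rfl

lemma eq_one_of_fix (hF : ∀ σ ∈ F, σ * σ = 1 → ∀ i, σ i = i → σ = 1) (h : U T F)
    (hh : h * h = 1) (v : T.V) (i : Fin d) (h1 : h.1 v = v) (h2 : h.1 (T.s i v) = T.s i v) :
    h = 1 := by
  have key : ∀ w, h.1 w = w ∧ ∀ j, h.1 (T.s j w) = T.s j w := by
    refine induct T v _ ⟨h1, fix_star T hF h hh v i h1 h2⟩ ?_
    rintro k u ⟨a1, a2⟩
    refine ⟨a2 k, fix_star T hF h hh _ k (a2 k) ?_⟩
    rw [s_s]; exact a1
  exact U_ext T fun w => (key w).1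

lemma parity (g : T.G ≃g T.G) (v0 w : T.V) :
    (T.G.dist (g w) v0 + T.G.dist w v0) % 2 = (T.G.dist (g v0) v0) % 2 := by
  refine induct T v0 (fun w => (T.G.dist (g w) v0 + T.G.dist w v0) % 2 =
    (T.G.dist (g v0) v0) % 2) (by simp) ?_ w
  intro i v hv
  have e1 := dist_adj T (adj_s T i v) v0
  have e2 := dist_adj T (g.map_adj_iff.2 (adj_s T i v)) v0
  omega

lemma exists_fixed (g : U T F) (hg : g * g * (g * g) = 1) : ∃ u, (g * g).1 u = u := by
  set h := g * g with hh
  have hinv : ∀ w, h.1 (h.1 w) = w := fun w => by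
    rw [← mul_apply, hg]; rfl
  obtain ⟨v0⟩ := T.isTree.connected.nonempty
  obtain ⟨v, hv⟩ : ∃ v, ∀ w, T.G.dist v (h.1 v) ≤ T.G.dist w (h.1 w) := by
    have : Nonempty T.V := ⟨v0⟩
    exact ⟨Function.argmin fun w => T.G.dist w (h.1 w), fun w =>
      Function.argmin_le (fun w => T.G.dist w (h.1 w)) w⟩
  by_contra hne
  push Not at hne
  obtain ⟨a, ha, hlt⟩ := exists_next T (hne v).symm
  have e1 : T.G.dist (h.1 a) v < T.G.dist (h.1 v) v := by
    have a1 := dist_map T h.1 a (h.1 v)
    have a2 := dist_map T h.1 v (h.1 v)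
    rw [hinv] at a1 a2
    omega
  have hadj : T.G.Adj (h.1 v) (h.1 a) := h.1.map_adj_iff.2 ha
  by_cases hav : a = h.1 v
  · have p1 := parity T g.1 v v
    have p2 := parity T g.1 v (g.1 v)
    have e : g.1 (g.1 v) = a := hav.symm
    rw [e] at p2
    have : T.G.dist a v = 1 := SimpleGraph.dist_eq_one_iff_adj.2 ha.symm
    omega
  · obtain ⟨b, hb, hlt2⟩ := exists_next T (v := h.1 v) (w := a) (Ne.symm hav)
    have c1 := dist_adj T ha (h.1 v)
    have c2 := dist_adj T hb v
    have c3 := dist_adj T hb a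
    have c4 := dist_adj T ha b
    have s1 := SimpleGraph.dist_comm (G := T.G) (u := h.1 v) (v := v)
    have s2 := SimpleGraph.dist_comm (G := T.G) (u := h.1 v) (v := a)
    have s3 := SimpleGraph.dist_comm (G := T.G) (u := b) (v := v)
    have s4 := SimpleGraph.dist_comm (G := T.G) (u := b) (v := a)
    have e2 : T.G.dist b v < T.G.dist (h.1 v) v := by omega
    have e3 : h.1 a = b := next_unique T hadj hb e1 e2
    have := hv a
    rw [e3] at this
    omega

/-- If involutions of F fixing a colour are trivial and F has no element of order four, then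
U(F) has no element of order four. -/
theorem no_order_four (hF : ∀ σ ∈ F, σ * σ = 1 → ∀ i, σ i = i → σ = 1)
    (hF4 : ∀ σ ∈ F, σ * σ * (σ * σ) = 1 → σ * σ = 1) (i0 : Fin d) (g : U T F)
    (hg : g * g * (g * g) = 1) : g * g = 1 := by
  obtain ⟨u, hu⟩ := exists_fixed T g hg
  by_cases h : g.1 u = u
  · obtain ⟨σ, hσ, hs⟩ := mem_U T g u
    rw [h] at hs
    have e4 : σ * σ * (σ * σ) = 1 := by
      ext k
      have : (g * g * (g * g)).1 (T.s k u) = T.s k u := by rw [hg]; rfl
      simp only [mul_apply, hs] at this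
      exact congrArg _ (s_inj T this)
    have e2 := hF4 σ hσ e4
    refine eq_one_of_fix T hF _ hg u i0 hu ?_
    rw [mul_apply, hs, hs]
    exact congrArg (fun k => T.s k u) (Equiv.congr_fun e2 i0)
  · have hu2 : (g * g).1 (g.1 u) = g.1 u := by
      rw [mul_apply] at hu ⊢
      rw [hu]
    obtain ⟨a, ha, hlt⟩ := exists_next T (Ne.symm h)
    have e1 : (g * g).1 a = a := by
      have hadj : T.G.Adj u ((g * g).1 a) := by
        have := (g * g).1.map_adj_iff.2 ha
        rwa [hu] at this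
      refine next_unique T hadj ha ?_ hlt
      have a1 := dist_map T (g * g).1 a (g.1 u)
      rw [hu2] at a1
      omega
    have ea := eq_s T ha
    refine eq_one_of_fix T hF _ hg u (T.c s(u, a)) hu ?_
    rw [← ea]; exact e1

lemma exists_fun (τ : Fin d → Fin d) (v w : T.V) :
    ∃ f : T.V → T.V, f v = w ∧ ∀ u j, f (T.s j u) = T.s (τ j) (f u) := by
  classical
  have hn : ∀ u, u ≠ v → ∃ i, T.G.dist (T.s i u) v < T.G.dist u v := fun u hu => by
    obtain ⟨a, ha, h⟩ := exists_next T hu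
    exact ⟨T.c s(u, a), by rw [← eq_s T ha]; exact h⟩
  choose dir hdir using hn
  let f : T.V → T.V := (measure fun u => T.G.dist u v).wf.fix fun u ih =>
    if h : u = v then w else T.s (τ (dir u h)) (ih (T.s (dir u h) u) (hdir u h))
  have hf : ∀ u, f u = if h : u = v then w else T.s (τ (dir u h)) (f (T.s (dir u h) u)) :=
    fun u => WellFounded.fix_eq _ _ u
  have key : ∀ u j, T.G.dist (T.s j u) v < T.G.dist u v → f u = T.s (τ j) (f (T.s j u)) := by
    intro u j hj
    have hu : u ≠ v := by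
      rintro rfl
      simp at hj
    have e : dir u hu = j := s_inj T (next_unique T (adj_s T _ u) (adj_s T _ u) (hdir u hu) hj)
    rw [hf u, dif_neg hu, e]
  refine ⟨f, by rw [hf v, dif_pos rfl], fun u j => ?_⟩
  rcases dist_adj T (adj_s T j u) v with h | h
  · rw [key u j (by omega), s_s]
  · have := key (T.s j u) j (by rw [s_s]; omega)
    rwa [s_s] at this

theorem rot {τ : Equiv.Perm (Fin d)} (hτ : τ ∈ F) (v w : T.V) :
    ∃ g : U T F, g.1 v = w ∧ ∀ u j, g.1 (T.s j u) = T.s (τ j) (g.1 u) := by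
  obtain ⟨f, f1, f2⟩ := exists_fun T τ v w
  obtain ⟨f', g1, g2⟩ := exists_fun T τ.symm w v
  have l : Function.LeftInverse f' f := by
    refine induct T v (fun u => f' (f u) = u) (by rw [f1, g1]) ?_
    intro i u hu
    rw [f2, g2, hu, τ.symm_apply_apply]
  have r : Function.RightInverse f' f := by
    refine induct T w (fun u => f (f' u) = u) (by rw [g1, f1]) ?_
    intro i u hu
    rw [g2, f2, hu, τ.apply_symm_apply]
  exact ⟨mkU T ⟨f, f', l, r⟩ fun u => ⟨τ, hτ, f2 u⟩, f1, f2⟩

/-- An element of order four in F gives an element of order four in U(F). -/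
theorem order_four {τ : Equiv.Perm (Fin d)} (hτ : τ ∈ F) (h4 : τ * τ * (τ * τ) = 1)
    (h2 : τ * τ ≠ 1) : ∃ g : U T F, g * g * (g * g) = 1 ∧ g * g ≠ 1 := by
  obtain ⟨v⟩ := T.isTree.connected.nonempty
  obtain ⟨g, g1, g2⟩ := rot T hτ v v
  refine ⟨g, U_ext T ?_, fun h => h2 ?_⟩
  · refine induct T v _ (by simp only [mul_apply, g1]; rfl) ?_
    intro i u hu
    simp only [mul_apply, one_apply] at hu ⊢
    rw [g2, g2, g2, g2, hu]
    exact congrArg (fun k => T.s k u) (Equiv.congr_fun h4 i)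
  · ext k
    have : (g * g).1 (T.s k v) = T.s k v := by rw [h]; rfl
    rw [mul_apply, g2, g2, g1, g1] at this
    exact congrArg _ (s_inj T this)

end Pool.Agent.Lib.MP_9a581e_an.Ord56
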